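import Pool.Agent.Helper37.BP.Defs2

/-! Part MAU of the case `p = ∞` of MP_6f6997_an: cotype `r` gives `p`-domination of operators on
`ℓ_∞^n`, for every `p > r` (Maurey, Pisier). -/

open MeasureTheory
open scoped ENNReal NNReal

set_option maxSynthPendingDepth 3

namespace Pool.Agent.Helper30.BAP

open Pool.Agent.BAPp (sgn weakNorm)
open Pool.Agent.Helper37.BP

variable {X : Type} [NormedAddCommGroup X] [NormedSpace ℝ X]

theorem abs_sgn' (b : Bool) : |sgn b| = 1 := by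
  unfold sgn; split_ifs <;> simp

/-- the operator `ℝ^n → X` -/
noncomputable def Bop {n : ℕ} (x : Fin n → X) (t : Fin n → ℝ) : X := ∑ i, t i • x i

theorem Bop_add {n : ℕ} (x : Fin n → X) (s t : Fin n → ℝ) :
    Bop x (fun i => s i + t i) = Bop x s + Bop x t := by
  unfold Bop; simp_rw [add_smul]; rw [Finset.sum_add_distrib]

theorem Bop_sub {n : ℕ} (x : Fin n → X) (s t : Fin n → ℝ) :
    Bop x (fun i => s i - t i) = Bop x s - Bop x t := by
  unfold Bop; simp_rw [sub_smul]; rw [Finset.sum_sub_distrib]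

theorem Bop_smul {n : ℕ} (x : Fin n → X) (c : ℝ) (t : Fin n → ℝ) :
    Bop x (fun i => c * t i) = c • Bop x t := by
  unfold Bop; rw [Finset.smul_sum]; simp_rw [smul_smul]

theorem Bop_sum {n m : ℕ} (x : Fin n → X) (c : Fin m → ℝ) (φ : Fin m → Fin n → ℝ) :
    Bop x (fun i => ∑ l, c l * φ l i) = ∑ l, c l • Bop x (φ l) := by
  unfold Bop
  simp_rw [Finset.smul_sum, Finset.sum_smul, smul_smul]
  exact Finset.sum_comm

theorem summing {r C : ℝ} (hr : 1 < r) (hC : 0 ≤ C) (h : Cot r C X) {n : ℕ} (x : Fin n → X)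
    (hx : ∀ t : Fin n → ℝ, (∀ i, |t i| ≤ 1) → ‖Bop x t‖ ≤ 1) (m : ℕ)
    (φ : Fin m → Fin n → ℝ) (hφ : ∀ i, ∑ l, |φ l i| ≤ 1) :
    ∑ l, ‖Bop x (φ l)‖ ^ r ≤ C ^ r := by
  have h1 := h m (fun l => Bop x (φ l))
  have h2 : (∑ ω : Fin m → Bool, ‖∑ l, sgn (ω l) • Bop x (φ l)‖) / 2 ^ m ≤ 1 := by
    rw [div_le_one (by positivity)]
    calc (∑ ω : Fin m → Bool, ‖∑ l, sgn (ω l) • Bop x (φ l)‖)
        ≤ ∑ ω : Fin m → Bool, (1 : ℝ) := by
          refine Finset.sum_le_sum fun ω _ => ?_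
          rw [← Bop_sum]
          refine hx _ fun i => ?_
          calc |∑ l, sgn (ω l) * φ l i| ≤ ∑ l, |sgn (ω l) * φ l i| :=
                Finset.abs_sum_le_sum_abs _ _
            _ = ∑ l, |φ l i| := by
              refine Finset.sum_congr rfl fun l _ => ?_
              rw [abs_mul, abs_sgn', one_mul]
            _ ≤ 1 := hφ i
      _ = 2 ^ m := by simp
  have h3 : (∑ l, ‖Bop x (φ l)‖ ^ r) ^ (1 / r) ≤ C :=
    h1.trans ((mul_le_mul_of_nonneg_left h2 hC).trans_eq (mul_one C))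
  have h4 : 0 ≤ ∑ l, ‖Bop x (φ l)‖ ^ r :=
    Finset.sum_nonneg fun l _ => Real.rpow_nonneg (norm_nonneg _) _
  have h5 := Real.rpow_le_rpow (Real.rpow_nonneg h4 _) h3 (by linarith : 0 ≤ r)
  rwa [← Real.rpow_mul h4, one_div, inv_mul_cancel₀ (by linarith), Real.rpow_one] at h5

/-- Pisier's domination, with an error `δ`. -/
theorem domδ {r M : ℝ} (hr : 1 < r) {n : ℕ} (x : Fin n → X) (hM : 0 < M)
    (hsup : ∀ (m : ℕ) (φ : Fin m → Fin n → ℝ), (∀ i, ∑ l, |φ l i| ≤ 1) →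
      ∑ l, ‖Bop x (φ l)‖ ^ r ≤ M)
    (hatt : ∀ M' < M, ∃ (m : ℕ) (φ : Fin m → Fin n → ℝ), (∀ i, ∑ l, |φ l i| ≤ 1) ∧
      M' < ∑ l, ‖Bop x (φ l)‖ ^ r) (δ : ℝ) (hδ : 0 < δ) :
    ∃ w : Fin n → ℝ, (∀ i, 0 ≤ w i) ∧ ∑ i, w i ≤ 1 ∧
      ∀ t : Fin n → ℝ, (∀ i, 0 ≤ t i) → (∀ i, t i ≤ 1) →
        ‖Bop x t‖ ^ r ≤ r * M * (δ + ∑ i, w i * t i) := by
  have hr0 : 0 < r := by linarith
  -- the trivial bound
  have htriv : ∀ t : Fin n → ℝ, (∀ i, 0 ≤ t i) → (∀ i, t i ≤ 1) → ‖Bop x t‖ ^ r ≤ M := by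
    intro t ht0 ht1
    have := hsup 1 (fun _ => t) (fun i => by simpa [abs_of_nonneg (ht0 i)] using ht1 i)
    simpa using this
  rcases le_or_gt 1 δ with h1δ | h1δ
  · refine ⟨0, fun i => le_rfl, by simp, fun t ht0 ht1 => (htriv t ht0 ht1).trans ?_⟩
    simp only [Pi.zero_apply, zero_mul, Finset.sum_const_zero, add_zero]
    have h1 : 1 * 1 ≤ r * δ := mul_le_mul hr.le h1δ zero_le_one hr0.le
    nlinarith
  -- an almost extremal family
  have h1 : (1 - δ) ^ r < 1 := Real.rpow_lt_one (by linarith) (by linarith) hr0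
  obtain ⟨m, φ, hφ, hS⟩ := hatt (M * (1 - δ) ^ r) (by nlinarith)
  set S : ℝ := ∑ l, ‖Bop x (φ l)‖ ^ r with hSdef
  have hSpos : 0 < S := lt_of_le_of_lt (mul_nonneg hM.le (Real.rpow_nonneg (by linarith) _)) hS
  have hfun : ∀ l, ∃ f : X →L[ℝ] ℝ, ‖f‖ ≤ 1 ∧ f (Bop x (φ l)) = ‖Bop x (φ l)‖ := by
    intro l
    obtain ⟨f, hf, hf'⟩ := exists_dual_vector'' ℝ (Bop x (φ l))
    exact ⟨f, hf, by simpa using hf'⟩
  choose f hf1 hf2 using hfun
  -- the functional
  let ψ : (Fin n → ℝ) → ℝ := fun t =>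
    ∑ l, ‖Bop x (φ l)‖ ^ (r - 1) * f l (Bop x (fun i => φ l i * t i))
  -- conjugate exponent
  have hconj : (r / (r - 1)).HolderConjugate r := (Real.HolderConjugate.conjExponent hr).symm
  have hψle : ∀ t : Fin n → ℝ, ψ t ≤ S ^ (1 - 1 / r) *
      (∑ l, ‖Bop x (fun i => φ l i * t i)‖ ^ r) ^ (1 / r) := by
    intro t
    have e1 : ψ t ≤ ∑ l, ‖Bop x (φ l)‖ ^ (r - 1) * ‖Bop x (fun i => φ l i * t i)‖ := by
      refine Finset.sum_le_sum fun l _ => ?_
      refine mul_le_mul_of_nonneg_left ?_ (Real.rpow_nonneg (norm_nonneg _) _)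
      calc f l (Bop x (fun i => φ l i * t i)) ≤ ‖f l (Bop x (fun i => φ l i * t i))‖ :=
            Real.le_norm_self _
        _ ≤ ‖f l‖ * ‖Bop x (fun i => φ l i * t i)‖ := (f l).le_opNorm _
        _ ≤ 1 * ‖Bop x (fun i => φ l i * t i)‖ :=
            mul_le_mul_of_nonneg_right (hf1 l) (norm_nonneg _)
        _ = _ := one_mul _
    refine e1.trans ?_
    have e2 := Real.inner_le_Lp_mul_Lq_of_nonneg Finset.univ hconj
      (f := fun l => ‖Bop x (φ l)‖ ^ (r - 1)) (g := fun l => ‖Bop x (fun i => φ l i * t i)‖)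
      (fun l _ => Real.rpow_nonneg (norm_nonneg _) _) (fun l _ => norm_nonneg _)
    refine e2.trans (le_of_eq ?_)
    congr 1
    have e3 : ∀ l, (‖Bop x (φ l)‖ ^ (r - 1)) ^ (r / (r - 1)) = ‖Bop x (φ l)‖ ^ r := by
      intro l
      rw [← Real.rpow_mul (norm_nonneg _)]
      congr 1
      have : r - 1 ≠ 0 := by linarith
      field_simp
    rw [Finset.sum_congr rfl fun l _ => e3 l, ← hSdef]
    congr 1
    have : r - 1 ≠ 0 := by linarith
    field_simp
  have hψadd : ∀ s t : Fin n → ℝ, ψ (fun i => s i + t i) = ψ s + ψ t := by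
    intro s t
    simp only [ψ]
    rw [← Finset.sum_add_distrib]
    refine Finset.sum_congr rfl fun l _ => ?_
    have : (fun i => φ l i * (s i + t i)) = fun i => φ l i * s i + φ l i * t i := by
      funext i; ring
    rw [this, Bop_add, map_add]; ring
  have hψsmul : ∀ (c : ℝ) (t : Fin n → ℝ), ψ (fun i => c * t i) = c * ψ t := by
    intro c t
    simp only [ψ]
    rw [Finset.mul_sum]
    refine Finset.sum_congr rfl fun l _ => ?_
    have : (fun i => φ l i * (c * t i)) = fun i => c * (φ l i * t i) := by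
      funext i; ring
    rw [this, Bop_smul, map_smul, smul_eq_mul]; ring
  let ψL : (Fin n → ℝ) →ₗ[ℝ] ℝ :=
    { toFun := ψ
      map_add' := fun s t => hψadd s t
      map_smul' := fun c t => hψsmul c t }
  have hψexp : ∀ t : Fin n → ℝ, ψ t = ∑ i, t i * ψ (Pi.single i 1) := by
    intro t
    have h1 : ψL t = _ := ψL.pi_apply_eq_sum_univ t
    refine h1.trans (Finset.sum_congr rfl fun i _ => ?_)
    have h2 : (fun j => if i = j then (1 : ℝ) else 0) = Pi.single i 1 := by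
      funext j
      rw [Pi.single_apply]
      by_cases hij : i = j
      · subst hij; simp
      · rw [if_neg hij, if_neg (Ne.symm hij)]
    rw [h2]; rfl
  have hψ1 : ψ (fun _ => 1) = S := by
    simp only [ψ, mul_one]
    rw [hSdef]
    refine Finset.sum_congr rfl fun l _ => ?_
    have : (fun i => φ l i) = φ l := rfl
    rw [this, hf2]
    rcases eq_or_lt_of_le (norm_nonneg (Bop x (φ l))) with h0 | h0
    · rw [← h0, mul_zero, Real.zero_rpow hr0.ne']
    · rw [← Real.rpow_add_one h0.ne']; congr 1; ring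
  set N : ℝ := S ^ (1 - 1 / r) * M ^ (1 / r) with hN
  have hNpos : 0 < N := mul_pos (Real.rpow_pos_of_pos hSpos _) (Real.rpow_pos_of_pos hM _)
  have hψN : ∀ t : Fin n → ℝ, (∀ i, |t i| ≤ 1) → ψ t ≤ N := by
    intro t ht
    refine (hψle t).trans ?_
    refine mul_le_mul_of_nonneg_left ?_ (Real.rpow_nonneg hSpos.le _)
    refine Real.rpow_le_rpow (Finset.sum_nonneg fun l _ => Real.rpow_nonneg (norm_nonneg _) _)
      (hsup m _ fun i => ?_) (by positivity)
    refine le_trans (Finset.sum_le_sum fun l _ => ?_) (hφ i)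
    rw [abs_mul]
    exact mul_le_of_le_one_right (abs_nonneg _) (ht i)
  refine ⟨fun i => |ψ (Pi.single i 1)| / N, fun i => by positivity, ?_, ?_⟩
  · rw [← Finset.sum_div, div_le_one hNpos]
    have e := hψN (fun i => SignType.sign (ψ (Pi.single i 1))) (fun i => by
      rcases lt_trichotomy (ψ (Pi.single i 1)) 0 with h | h | h <;> simp [h])
    rw [hψexp] at e
    refine le_trans (le_of_eq (Finset.sum_congr rfl fun i _ => ?_)) e
    rw [sign_mul_self]
  · intro t ht0 ht1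
    set u : ℝ := ∑ i, |ψ (Pi.single i 1)| / N * t i with hu
    have hu0 : 0 ≤ u := Finset.sum_nonneg fun i _ => mul_nonneg (by positivity) (ht0 i)
    have hψt : ψ t ≤ N * u := by
      rw [hψexp, hu, Finset.mul_sum]
      refine Finset.sum_le_sum fun i _ => ?_
      have : N * (|ψ (Pi.single i 1)| / N * t i) = t i * |ψ (Pi.single i 1)| := by
        field_simp
      rw [this]
      exact mul_le_mul_of_nonneg_left (le_abs_self _) (ht0 i)
    -- the combined family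
    have hcomb : ‖Bop x t‖ ^ r + ∑ l, ‖Bop x (fun i => φ l i * (1 - t i))‖ ^ r ≤ M := by
      have := hsup (m + 1) (Fin.cons t (fun l i => φ l i * (1 - t i))) (fun i => by
        rw [Fin.sum_univ_succ]
        simp only [Fin.cons_zero, Fin.cons_succ]
        rw [abs_of_nonneg (ht0 i)]
        have : ∑ l, |φ l i * (1 - t i)| = (∑ l, |φ l i|) * (1 - t i) := by
          rw [Finset.sum_mul]
          refine Finset.sum_congr rfl fun l _ => ?_
          rw [abs_mul, abs_of_nonneg (sub_nonneg.2 (ht1 i))]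
        rw [this]
        nlinarith [hφ i, ht1 i])
      rw [Fin.sum_univ_succ] at this
      simpa using this
    have hlow : S ^ (1 / r) - M ^ (1 / r) * u ≤
        (∑ l, ‖Bop x (fun i => φ l i * (1 - t i))‖ ^ r) ^ (1 / r) := by
      have e1 := hψle (fun i => 1 - t i)
      have e2 : ψ (fun i => 1 - t i) = S - ψ t := by
        have := hψadd (fun i => 1 - t i) t
        have e : (fun i => 1 - t i + t i) = fun _ => (1 : ℝ) := by funext i; ring
        rw [e, hψ1] at this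
        linarith
      rw [e2] at e1
      have hSp : 0 < S ^ (1 - 1 / r) := Real.rpow_pos_of_pos hSpos _
      have e3 : S ^ (1 - 1 / r) * (S ^ (1 / r) - M ^ (1 / r) * u) ≤ S - ψ t := by
        have : S ^ (1 - 1 / r) * S ^ (1 / r) = S := by
          rw [← Real.rpow_add hSpos]; simp
        rw [mul_sub, this, ← mul_assoc]
        have : S ^ (1 - 1 / r) * M ^ (1 / r) * u = N * u := by rw [hN]
        linarith
      exact le_of_mul_le_mul_left (e3.trans e1) hSp
    have hSr : M ^ (1 / r) * (1 - δ) ≤ S ^ (1 / r) := by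
      have := Real.rpow_le_rpow (by
        exact mul_nonneg hM.le (Real.rpow_nonneg (by linarith) _)) hS.le
        (by positivity : 0 ≤ 1 / r)
      rwa [Real.mul_rpow hM.le (Real.rpow_nonneg (by linarith) _),
        ← Real.rpow_mul (by linarith), mul_one_div_cancel hr0.ne', Real.rpow_one] at this
    set Q : ℝ := ∑ l, ‖Bop x (fun i => φ l i * (1 - t i))‖ ^ r with hQ
    have hQ0 : 0 ≤ Q := Finset.sum_nonneg fun l _ => Real.rpow_nonneg (norm_nonneg _) _
    rcases le_or_gt 1 (δ + u) with h1 | h1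
    · refine (htriv t ht0 ht1).trans ?_
      nlinarith [mul_nonneg hr0.le hM.le]
    · have e1 : M ^ (1 / r) * (1 - (δ + u)) ≤ Q ^ (1 / r) := by
        have : M ^ (1 / r) * (1 - (δ + u)) = M ^ (1 / r) * (1 - δ) - M ^ (1 / r) * u := by ring
        linarith
      have e2 := Real.rpow_le_rpow (mul_nonneg (Real.rpow_nonneg hM.le _) (by linarith)) e1 hr0.le
      rw [Real.mul_rpow (Real.rpow_nonneg hM.le _) (by linarith), ← Real.rpow_mul hM.le,
        ← Real.rpow_mul hQ0, one_div, inv_mul_cancel₀ hr0.ne', Real.rpow_one, Real.rpow_one] at e2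
      have e3 := one_add_mul_self_le_rpow_one_add (s := -(δ + u)) (by linarith) hr.le
      have e4 : (1 : ℝ) + -(δ + u) = 1 - (δ + u) := by ring
      rw [e4] at e3
      have e5 : M * (1 + r * -(δ + u)) ≤ Q := (mul_le_mul_of_nonneg_left e3 hM.le).trans e2
      nlinarith

/-- Pisier's domination. -/
theorem dom {r C : ℝ} (hr : 1 < r) (hC : 0 ≤ C) (h : Cot r C X) {n : ℕ} (x : Fin n → X)
    (hx : ∀ t : Fin n → ℝ, (∀ i, |t i| ≤ 1) → ‖Bop x t‖ ≤ 1) :
    ∃ w : Fin n → ℝ, (∀ i, 0 ≤ w i) ∧ ∑ i, w i ≤ 1 ∧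
      ∀ t : Fin n → ℝ, (∀ i, 0 ≤ t i) → (∀ i, t i ≤ 1) →
        ‖Bop x t‖ ^ r ≤ r * C ^ r * ∑ i, w i * t i := by
  have hr0 : 0 < r := by linarith
  let A : Set ℝ := {s | ∃ (m : ℕ) (φ : Fin m → Fin n → ℝ), (∀ i, ∑ l, |φ l i| ≤ 1) ∧
    s = ∑ l, ‖Bop x (φ l)‖ ^ r}
  have hAne : A.Nonempty := ⟨_, 0, Fin.elim0, fun i => by simp, rfl⟩
  have hAbd : BddAbove A := ⟨C ^ r, by
    rintro s ⟨m, φ, hφ, rfl⟩
    exact summing hr hC h x hx m φ hφ⟩
  have hMle : sSup A ≤ C ^ r := csSup_le hAne (by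
    rintro s ⟨m, φ, hφ, rfl⟩
    exact summing hr hC h x hx m φ hφ)
  have hsup : ∀ (m : ℕ) (φ : Fin m → Fin n → ℝ), (∀ i, ∑ l, |φ l i| ≤ 1) →
      ∑ l, ‖Bop x (φ l)‖ ^ r ≤ sSup A := fun m φ hφ => le_csSup hAbd ⟨m, φ, hφ, rfl⟩
  have hM0 : 0 ≤ sSup A := le_csSup_of_le hAbd ⟨0, Fin.elim0, fun i => by simp, rfl⟩ (by simp)
  have hδ : ∀ δ : ℝ, 0 < δ → ∃ w : Fin n → ℝ, (∀ i, 0 ≤ w i) ∧ ∑ i, w i ≤ 1 ∧
      ∀ t : Fin n → ℝ, (∀ i, 0 ≤ t i) → (∀ i, t i ≤ 1) →
        ‖Bop x t‖ ^ r ≤ r * C ^ r * (δ + ∑ i, w i * t i) := by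
    intro δ hδ
    rcases eq_or_lt_of_le hM0 with hM | hM
    · refine ⟨0, fun i => le_rfl, by simp, fun t ht0 ht1 => ?_⟩
      have h1 := hsup 1 (fun _ => t) (fun i => by simpa [abs_of_nonneg (ht0 i)] using ht1 i)
      rw [← hM] at h1
      simp only [Finset.univ_unique, Finset.sum_const, Finset.card_singleton, one_smul] at h1
      refine h1.trans ?_
      have : 0 ≤ C ^ r := Real.rpow_nonneg hC _
      simp only [Pi.zero_apply, zero_mul, Finset.sum_const_zero, add_zero]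
      positivity
    · obtain ⟨w, hw0, hw1, hw⟩ := domδ hr x hM hsup (fun M' hM' => by
        obtain ⟨s, ⟨m, φ, hφ, rfl⟩, hs⟩ := exists_lt_of_lt_csSup hAne hM'
        exact ⟨m, φ, hφ, hs⟩) δ hδ
      refine ⟨w, hw0, hw1, fun t ht0 ht1 => (hw t ht0 ht1).trans ?_⟩
      have : 0 ≤ δ + ∑ i, w i * t i :=
        add_nonneg hδ.le (Finset.sum_nonneg fun i _ => mul_nonneg (hw0 i) (ht0 i))
      exact mul_le_mul_of_nonneg_right (mul_le_mul_of_nonneg_left hMle hr0.le) this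
  -- compactness
  have hpos : ∀ k : ℕ, (0 : ℝ) < 1 / (k + 1) := fun k => by positivity
  choose w hw0 hw1 hw using fun k : ℕ => hδ (1 / (k + 1)) (hpos k)
  have hcpt : IsCompact (Set.pi Set.univ fun _ : Fin n => Set.Icc (0 : ℝ) 1) :=
    isCompact_univ_pi fun _ => isCompact_Icc
  have hmem : ∀ k, w k ∈ Set.pi Set.univ fun _ : Fin n => Set.Icc (0 : ℝ) 1 := by
    intro k i _
    refine ⟨hw0 k i, (Finset.single_le_sum (fun j _ => hw0 k j) (Finset.mem_univ i)).trans (hw1 k)⟩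
  obtain ⟨w', _, g, hg, hlim⟩ := hcpt.tendsto_subseq hmem
  have hlim' : ∀ i, Filter.Tendsto (fun k => w (g k) i) Filter.atTop (nhds (w' i)) :=
    fun i => (tendsto_pi_nhds.1 hlim i)
  refine ⟨w', fun i => ?_, ?_, fun t ht0 ht1 => ?_⟩
  · exact ge_of_tendsto' (hlim' i) fun k => hw0 (g k) i
  · refine le_of_tendsto' (tendsto_finsetSum _ fun i _ => hlim' i) fun k => hw1 (g k)
  · have h0 : Filter.Tendsto (fun k : ℕ => (1 : ℝ) / ((g k : ℝ) + 1)) Filter.atTop (nhds 0) :=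
      tendsto_one_div_add_atTop_nhds_zero_nat.comp hg.tendsto_atTop
    have h1 : Filter.Tendsto (fun k : ℕ => r * C ^ r * ((1 : ℝ) / ((g k : ℝ) + 1) +
        ∑ i, w (g k) i * t i)) Filter.atTop (nhds (r * C ^ r * (0 + ∑ i, w' i * t i))) :=
      (h0.add (tendsto_finsetSum _ fun i _ => (hlim' i).mul_const (t i))).const_mul _
    rw [zero_add] at h1
    exact ge_of_tendsto' h1 fun k => hw (g k) t ht0 ht1

/-- level sets -/
theorem level {r p K : ℝ} (hr : 1 < r) (hrp : r < p) (hK : 0 ≤ K) {n : ℕ} (x : Fin n → X)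
    (w : Fin n → ℝ) (hw0 : ∀ i, 0 ≤ w i) (hw1 : ∑ i, w i ≤ 1)
    (hw : ∀ t : Fin n → ℝ, (∀ i, 0 ≤ t i) → (∀ i, t i ≤ 1) →
        ‖Bop x t‖ ^ r ≤ K ^ r * ∑ i, w i * t i) (k : ℕ) :
    ∀ t : Fin n → ℝ, (∀ i, 0 ≤ t i) → (∀ i, t i ≤ 2 ^ k) → ∑ i, w i * t i ^ p ≤ 1 →
      ‖Bop x t‖ ≤ K * (1 + ∑ j ∈ Finset.range k, 2 * ((2 : ℝ) ^ (1 - p / r)) ^ j) := by
  have hr0 : 0 < r := by linarith
  have hp0 : 0 < p := by linarith
  have root : ∀ a b : ℝ, 0 ≤ a → 0 ≤ b → a ^ r ≤ K ^ r * b ^ r → a ≤ K * b := by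
    intro a b ha hb hab
    rw [← Real.mul_rpow hK hb] at hab
    exact (Real.rpow_le_rpow_iff ha (mul_nonneg hK hb) hr0).1 hab
  induction k with
  | zero =>
    intro t ht0 ht1 _
    simp only [pow_zero] at ht1
    simp only [Finset.range_zero, Finset.sum_empty, add_zero]
    refine root _ _ (norm_nonneg _) zero_le_one ((hw t ht0 ht1).trans ?_)
    refine mul_le_mul_of_nonneg_left ?_ (Real.rpow_nonneg hK _)
    rw [Real.one_rpow]
    refine le_trans (Finset.sum_le_sum fun i _ => ?_) hw1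
    exact mul_le_of_le_one_right (hw0 i) (ht1 i)
  | succ k ih =>
    intro t ht0 ht1 hts
    let t1 : Fin n → ℝ := fun i => if t i ≤ 2 ^ k then t i else 0
    let t2 : Fin n → ℝ := fun i => if t i ≤ 2 ^ k then 0 else t i
    let s : Fin n → ℝ := fun i => if t i ≤ 2 ^ k then 0 else t i / 2 ^ (k + 1)
    have et : t = fun i => t1 i + t2 i := by
      funext i; simp only [t1, t2]; split_ifs <;> simp
    have e2 : t2 = fun i => (2 : ℝ) ^ (k + 1) * s i := by
      funext i; simp only [s, t2]; split_ifs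
      · simp
      · field_simp
    have h1 : ‖Bop x t1‖ ≤ K * (1 + ∑ j ∈ Finset.range k, 2 * ((2 : ℝ) ^ (1 - p / r)) ^ j) := by
      refine ih t1 (fun i => ?_) (fun i => ?_) (le_trans (Finset.sum_le_sum fun i _ => ?_) hts)
      · simp only [t1]; split_ifs; exacts [ht0 i, le_rfl]
      · simp only [t1]; split_ifs with h; exacts [h, by positivity]
      · simp only [t1]; split_ifs
        · exact le_rfl
        · rw [Real.zero_rpow hp0.ne', mul_zero]
          exact mul_nonneg (hw0 i) (Real.rpow_nonneg (ht0 i) _)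
    have hs0 : ∀ i, 0 ≤ s i := by
      intro i; simp only [s]; split_ifs; exacts [le_rfl, div_nonneg (ht0 i) (by positivity)]
    have hs1 : ∀ i, s i ≤ 1 := by
      intro i; simp only [s]; split_ifs
      · exact zero_le_one
      · rw [div_le_one (by positivity)]; exact ht1 i
    have hsum : ∑ i, w i * s i ≤ ((2 : ℝ) ^ (-(k : ℝ) * p / r)) ^ r := by
      have e : ((2 : ℝ) ^ (-(k : ℝ) * p / r)) ^ r = ((2 : ℝ) ^ ((k : ℝ) * p))⁻¹ := by
        rw [← Real.rpow_mul (by norm_num), ← Real.rpow_neg (by norm_num)]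
        congr 1
        field_simp
      rw [e, ← one_div, le_div_iff₀ (Real.rpow_pos_of_pos (by norm_num) _), Finset.sum_mul]
      refine le_trans (Finset.sum_le_sum fun i _ => ?_) hts
      simp only [s]; split_ifs with h
      · simp only [mul_zero, zero_mul]
        exact mul_nonneg (hw0 i) (Real.rpow_nonneg (ht0 i) _)
      · rw [mul_assoc]
        refine mul_le_mul_of_nonneg_left ?_ (hw0 i)
        have h2 : (2 : ℝ) ^ ((k : ℝ) * p) ≤ t i ^ p := by
          rw [Real.rpow_mul (by norm_num), Real.rpow_natCast]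
          exact Real.rpow_le_rpow (by positivity) (le_of_lt (not_le.1 h)) hp0.le
        have h3 : t i / 2 ^ (k + 1) ≤ 1 := by
          rw [div_le_one (by positivity)]; exact ht1 i
        have h4 : 0 ≤ t i / 2 ^ (k + 1) := div_nonneg (ht0 i) (by positivity)
        calc t i / 2 ^ (k + 1) * 2 ^ ((k : ℝ) * p) ≤ 1 * 2 ^ ((k : ℝ) * p) :=
              mul_le_mul_of_nonneg_right h3 (Real.rpow_nonneg (by norm_num) _)
          _ ≤ t i ^ p := by rw [one_mul]; exact h2
    have h2 : ‖Bop x s‖ ≤ K * (2 : ℝ) ^ (-(k : ℝ) * p / r) :=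
      root _ _ (norm_nonneg _) (Real.rpow_nonneg (by norm_num) _)
        ((hw s hs0 hs1).trans (mul_le_mul_of_nonneg_left hsum (Real.rpow_nonneg hK _)))
    have h3 : ‖Bop x t2‖ ≤ K * (2 * ((2 : ℝ) ^ (1 - p / r)) ^ k) := by
      rw [e2, Bop_smul, norm_smul, Real.norm_of_nonneg (by positivity)]
      calc (2 : ℝ) ^ (k + 1) * ‖Bop x s‖ ≤ 2 ^ (k + 1) * (K * (2 : ℝ) ^ (-(k : ℝ) * p / r)) :=
            mul_le_mul_of_nonneg_left h2 (by positivity)
        _ = K * (2 * ((2 : ℝ) ^ (1 - p / r)) ^ k) := by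
          have : ((2 : ℝ) ^ (1 - p / r)) ^ k = 2 ^ k * (2 : ℝ) ^ (-(k : ℝ) * p / r) := by
            rw [← Real.rpow_natCast ((2 : ℝ) ^ (1 - p / r)) k, ← Real.rpow_mul (by norm_num),
              ← Real.rpow_natCast (2 : ℝ) k, ← Real.rpow_add (by norm_num)]
            congr 1
            ring
          rw [this]; ring
    calc ‖Bop x t‖ = ‖Bop x t1 + Bop x t2‖ := by rw [← Bop_add, ← et]
      _ ≤ ‖Bop x t1‖ + ‖Bop x t2‖ := norm_add_le _ _
      _ ≤ _ := by
        rw [Finset.sum_range_succ]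
        linarith

theorem maurey (r p C : ℝ) (hr : 1 < r) (hrp : r < p) {X : Type} [NormedAddCommGroup X]
    [NormedSpace ℝ X] (h : Cot r C X) : ∃ C' : ℝ, 1 ≤ C' ∧ LinfDom p C' X := by
  have hr0 : 0 < r := by linarith
  have hp0 : 0 < p := by linarith
  set C1 : ℝ := max C 0 with hC1
  have hC10 : 0 ≤ C1 := le_max_right _ _
  have h' : Cot r C1 X := fun n x => (h n x).trans
    (mul_le_mul_of_nonneg_right (le_max_left _ _) (by positivity))
  set K : ℝ := (r * C1 ^ r) ^ (1 / r) with hKdef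
  have hrC : 0 ≤ r * C1 ^ r := mul_nonneg hr0.le (Real.rpow_nonneg hC10 _)
  have hK0 : 0 ≤ K := Real.rpow_nonneg hrC _
  have hKr : K ^ r = r * C1 ^ r := by
    rw [hKdef, ← Real.rpow_mul hrC, one_div, inv_mul_cancel₀ hr0.ne', Real.rpow_one]
  set ρ : ℝ := (2 : ℝ) ^ (1 - p / r) with hρ
  have hρ0 : 0 ≤ ρ := Real.rpow_nonneg (by norm_num) _
  have hρ1 : ρ < 1 := Real.rpow_lt_one_of_one_lt_of_neg (by norm_num)
    (by have : 1 < p / r := (one_lt_div hr0).2 hrp
        linarith)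
  set D : ℝ := K * (1 + 2 / (1 - ρ)) with hD
  have hD0 : 0 ≤ D := mul_nonneg hK0 (by have := sub_pos.2 hρ1; positivity)
  refine ⟨max 1 (2 * D), le_max_left _ _, fun n x hx => ?_⟩
  obtain ⟨w, hw0, hw1, hw⟩ := dom hr hC10 h' x hx
  refine ⟨w, hw0, hw1, ?_⟩
  rw [← hKr] at hw
  have hlev := level hr hrp hK0 x w hw0 hw1 hw
  -- nonnegative, normalised
  have hA : ∀ t : Fin n → ℝ, (∀ i, 0 ≤ t i) → ∑ i, w i * t i ^ p ≤ 1 → ‖Bop x t‖ ≤ D := by
    intro t ht0 hts
    obtain ⟨k, hk⟩ : ∃ k : ℕ, ∀ i, t i ≤ 2 ^ k := by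
      have : ∀ i, ∃ k : ℕ, t i ≤ 2 ^ k := fun i => by
        obtain ⟨k, hk⟩ := pow_unbounded_of_one_lt (t i) (by norm_num : (1 : ℝ) < 2)
        exact ⟨k, hk.le⟩
      choose g hg using this
      refine ⟨Finset.univ.sup g, fun i => (hg i).trans ?_⟩
      exact pow_le_pow_right₀ (by norm_num) (Finset.le_sup (Finset.mem_univ i))
    refine (hlev k t ht0 hk hts).trans ?_
    refine mul_le_mul_of_nonneg_left ?_ hK0
    rw [← Finset.mul_sum]
    have h1 : ∑ j ∈ Finset.range k, ρ ^ j ≤ 1 / (1 - ρ) := by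
      rw [le_div_iff₀ (by linarith), geom_sum_mul_neg]
      linarith [pow_nonneg hρ0 k]
    have h2 : 2 / (1 - ρ) = 2 * (1 / (1 - ρ)) := by ring
    rw [h2]
    linarith
  -- nonnegative
  have hB : ∀ t : Fin n → ℝ, (∀ i, 0 ≤ t i) → ‖Bop x t‖ ≤ D * (∑ i, w i * t i ^ p) ^ (1 / p) := by
    intro t ht0
    have hs0 : 0 ≤ ∑ i, w i * t i ^ p :=
      Finset.sum_nonneg fun i _ => mul_nonneg (hw0 i) (Real.rpow_nonneg (ht0 i) _)
    have hscale : ∀ c : ℝ, 0 ≤ c → ∑ i, w i * (c * t i) ^ p = c ^ p * ∑ i, w i * t i ^ p := by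
      intro c hc
      rw [Finset.mul_sum]
      refine Finset.sum_congr rfl fun i _ => ?_
      rw [Real.mul_rpow hc (ht0 i)]; ring
    rcases eq_or_lt_of_le hs0 with hs | hs
    · rw [← hs, Real.zero_rpow (by positivity), mul_zero]
      by_contra hcon
      push Not at hcon
      have hc0 : 0 ≤ (D + 1) / ‖Bop x t‖ := div_nonneg (by linarith) hcon.le
      have := hA (fun i => (D + 1) / ‖Bop x t‖ * t i) (fun i => mul_nonneg hc0 (ht0 i))
        (by rw [hscale _ hc0, ← hs, mul_zero]; exact zero_le_one)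
      rw [Bop_smul, norm_smul, Real.norm_of_nonneg hc0, div_mul_cancel₀ _ hcon.ne'] at this
      linarith
    · set s : ℝ := (∑ i, w i * t i ^ p) ^ (1 / p) with hsdef
      have hspos : 0 < s := Real.rpow_pos_of_pos hs _
      have hsp : s ^ p = ∑ i, w i * t i ^ p := by
        rw [hsdef, ← Real.rpow_mul hs.le, one_div, inv_mul_cancel₀ hp0.ne', Real.rpow_one]
      have := hA (fun i => s⁻¹ * t i) (fun i => mul_nonneg (inv_nonneg.2 hspos.le) (ht0 i))
        (by rw [hscale _ (inv_nonneg.2 hspos.le), Real.inv_rpow hspos.le, hsp,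
              inv_mul_cancel₀ hs.ne'])
      rw [Bop_smul, norm_smul, Real.norm_of_nonneg (inv_nonneg.2 hspos.le)] at this
      rw [inv_mul_le_iff₀ hspos] at this
      linarith [mul_comm s D]
  intro t
  have e : t = fun i => max (t i) 0 - max (-t i) 0 := by
    funext i
    rcases le_total 0 (t i) with h | h
    · rw [max_eq_left h, max_eq_right (by linarith)]; ring
    · rw [max_eq_right h, max_eq_left (by linarith)]; ring
  have hle : ∀ u : Fin n → ℝ, (∀ i, 0 ≤ u i) → (∀ i, u i ≤ |t i|) →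
      ‖Bop x u‖ ≤ D * (∑ i, w i * |t i| ^ p) ^ (1 / p) := by
    intro u hu0 hu1
    refine (hB u hu0).trans (mul_le_mul_of_nonneg_left ?_ hD0)
    refine Real.rpow_le_rpow (Finset.sum_nonneg fun i _ => mul_nonneg (hw0 i)
      (Real.rpow_nonneg (hu0 i) _)) (Finset.sum_le_sum fun i _ => ?_) (by positivity)
    exact mul_le_mul_of_nonneg_left (Real.rpow_le_rpow (hu0 i) (hu1 i) hp0.le) (hw0 i)
  have h1 := hle (fun i => max (t i) 0) (fun i => le_max_right _ _)
    (fun i => max_le (le_abs_self _) (abs_nonneg _))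
  have h2 := hle (fun i => max (-t i) 0) (fun i => le_max_right _ _)
    (fun i => max_le (neg_le_abs _) (abs_nonneg _))
  have h3 : ‖Bop x t‖ ≤ 2 * D * (∑ i, w i * |t i| ^ p) ^ (1 / p) := by
    calc ‖Bop x t‖ = ‖Bop x (fun i => max (t i) 0) - Bop x (fun i => max (-t i) 0)‖ := by
          rw [← Bop_sub, ← e]
      _ ≤ ‖Bop x (fun i => max (t i) 0)‖ + ‖Bop x (fun i => max (-t i) 0)‖ := norm_sub_le _ _
      _ ≤ _ := by linarith
  refine h3.trans (mul_le_mul_of_nonneg_right (le_max_right _ _) (Real.rpow_nonneg ?_ _))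
  exact Finset.sum_nonneg fun i _ => mul_nonneg (hw0 i) (Real.rpow_nonneg (abs_nonneg _) _)

end Pool.Agent.Helper30.BAP
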